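import Pool.Agent.Helper97.PD.Defs

/-!
# Project PD, block P11: the line

`K0 = k(x)`, `h = f(x)`, `f ∈ k[x]` not zero.  The branch points of `y ^ ℓ = f(x)`: the roots of `f`
with multiplicity prime to `ℓ`, and infinity if the degree is prime to `ℓ`.
-/

set_option autoImplicit false

namespace Pool.Agent.PD

open VC Filter Topology NumberField IsDedekindDomain IntermediateField Pool.Agent.SC
open Pool.Agent.L (Inert L0 MM SamePlace OverV)
open Pool.Agent.LN (Geo Act IsRam DecPt)
open Pool.Agent.M (UR NN Moves OverPl inL0)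
open Pool.Agent.ML (HasMu BPl)

noncomputable section

/-- the number of the branch points of `y ^ ℓ = f(x)` over the algebraically closed field `E` -/
def nBr {k : Type} (E : Type) [Field k] [Field E] [Algebra k E] (ℓ : ℕ) (f : Polynomial k) : ℕ :=
  Nat.card {e : E // ¬ ℓ ∣ (f.map (algebraMap k E)).rootMultiplicity e} +
    if ℓ ∣ f.natDegree then 0 else 1

/-- The situation: `K0 = k(x)`, `h = f(x)`. -/
structure HypL {k K0 : Type} (E : Type) {U : Type} [Field k] [Field K0] [Field E] [Field U]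
    [Algebra k K0] [Algebra k E] [Algebra E U] [Algebra K0 U] [Algebra k U] (ℓ : ℕ) (x : K0)
    (f : Polynomial k) (r : U) : Prop where
  geo : Geo k K0 E U ℓ (Polynomial.aeval x f) r
  gen : IntermediateField.adjoin k {x} = ⊤
  tr : Transcendental k x

/-- There is a branch point over `x = p`, `p ∈ E` not in `S`, of degree prime to `ℓ` over `k`. -/
def Third {k : Type} (E : Type) [Field k] [Field E] [Algebra k E] (ℓ : ℕ) (f : Polynomial k)
    (S : Set E) : Prop :=
  ∃ p : E, p ∉ S ∧ ¬ ℓ ∣ (f.map (algebraMap k E)).rootMultiplicity p ∧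
    ¬ ℓ ∣ (minpoly k p).natDegree

/-- The numerical conditions: `n` branch points, `n ℓ ^ 2 < ℓ ^ n`, and for two rational branch
points: `ℓ` is odd, and there is another closed branch point of degree prime to `ℓ`. -/
structure NumC {k : Type} (E : Type) [Field k] [Field E] [Algebra k E] (ℓ : ℕ) (f : Polynomial k) :
    Prop where
  num : nBr E ℓ f * ℓ ^ 2 < ℓ ^ nBr E ℓ f
  pair : ∀ α β : k, α ≠ β → ¬ ℓ ∣ f.rootMultiplicity α → ¬ ℓ ∣ f.rootMultiplicity β →
    ℓ ≠ 2 ∧ (¬ ℓ ∣ f.natDegree ∨ Third E ℓ f {algebraMap k E α, algebraMap k E β})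
  pairI : ∀ α : k, ¬ ℓ ∣ f.rootMultiplicity α → ¬ ℓ ∣ f.natDegree →
    ℓ ≠ 2 ∧ Third E ℓ f {algebraMap k E α}

/-- there is a rational branch point -/
def RatBr {k : Type} [Field k] (ℓ : ℕ) (f : Polynomial k) : Prop :=
  (∃ α : k, ¬ ℓ ∣ f.rootMultiplicity α) ∨ ¬ ℓ ∣ f.natDegree

/-- the rational places: `x` has a pole or a value in `k` -/
def RatPl {k K0 E U : Type} [Field k] [Field K0] [Field E] [Field U] [Algebra k E] [Algebra E U]
    [Algebra K0 U] (x : K0) (b : Place E (L0 E K0 (U := U))) : Prop :=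
  inL0 x ∉ b.ring ∨ ∃ α : k, b.ring.valuation (inL0 x - algebraMap E _ (algebraMap k E α)) < 1

/-- BLOCK P11a: the set `R` for the line. -/
def StmtRS : Prop :=
  ∀ (k K0 E U : Type) [Field k] [NumberField k] [Field K0] [Field E] [Field U] [Algebra k K0]
    [Algebra k E] [Algebra E U] [Algebra K0 U] [Algebra k U] [IsScalarTower k E U]
    [IsScalarTower k K0 U] (ℓ : ℕ) (x : K0) (f : Polynomial k) (r : U), ℓ.Prime → HasMu k ℓ →
    HypL E ℓ x f r → NumC E ℓ f → RatBr ℓ f →
    ∃ R : Finset (Place E (L0 E K0 (U := U))), RatSet (k := k) ℓ (Polynomial.aeval x f) r R ∧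
      ∀ b, b ∈ R ↔ BPl ℓ (Polynomial.aeval x f) b ∧ RatPl (k := k) x b

/-- BLOCK P11b: without rational branch point there is no rational totally ramified point. -/
def StmtRT : Prop :=
  ∀ (k K0 : Type) [Field k] [NumberField k] [Field K0] [Algebra k K0] (ℓ : ℕ) (x : K0)
    (f : Polynomial k), ℓ.Prime → IntermediateField.adjoin k {x} = ⊤ → Transcendental k x →
    f ≠ 0 → ML.RatTot k ℓ (Polynomial.aeval x f) → RatBr ℓ f

/-- BLOCK P11c: the curve is good. -/
def StmtGCL : Prop :=
  ∀ (k : Type) [Field k] [CharZero k] (ℓ : ℕ) (f : Polynomial k), ℓ.Prime → f ≠ 0 →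
    3 ≤ nBr (AlgebraicClosure k) ℓ f →
    LN.GoodCurve k ℓ (algebraMap (Polynomial k) (FractionRing (Polynomial k)) f)

/-- BLOCK P11d: the conditions do not depend on the algebraic closure. -/
def StmtNB : Prop :=
  ∀ (k E : Type) [Field k] [Field E] [IsAlgClosed E] [Algebra k E] [Algebra.IsAlgebraic k E]
    (ℓ : ℕ) (f : Polynomial k), nBr E ℓ f = nBr (AlgebraicClosure k) ℓ f ∧
      (NumC (AlgebraicClosure k) ℓ f → NumC E ℓ f)

end

end Pool.Agent.PD
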