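import Pool.Agent.Helper28.TW.KX2a
import Pool.Agent.Helper17.TW.INF

/-!
# Project PD, block P11: the places of `E(X)`
-/

set_option autoImplicit false

namespace Pool.Agent.PD.Line

open VC Pool.Agent.SC Polynomial IntermediateField

section ff

variable {E F : Type} [Field E] [Field F] [Algebra E F] [IsAlgClosed E]

/-- a generator of the rational function field has exactly one zero -/
theorem zero_unique (hF : IsFunctionField E F) {t : F} (htr : Transcendental E t)
    (hgen : E⟮t⟯ = ⊤) {P P' : Place E F} (h : t ∈ P.ring.nonunits) (h' : t ∈ P'.ring.nonunits) :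
    P = P' ∧ ord P.ring t = 1 := by
  classical
  have ht0 : t ≠ 0 := by
    rintro rfl
    exact htr isAlgebraic_zero
  have hfr : Module.finrank E⟮t⟯ F = 1 := by rw [hgen, IntermediateField.finrank_top]
  have h1 := (FF.ord_pos_iff hF P ht0).2 h
  have h1' := (FF.ord_pos_iff hF P' ht0).2 h'
  constructor
  · by_contra hne
    have h2 := FF.sum_ord_le hF htr {P, P'} (by
      intro Q hQ
      rw [Finset.mem_insert, Finset.mem_singleton] at hQ
      rcases hQ with rfl | rfl
      · exact h
      · exact h')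
    rw [Finset.sum_pair hne, hfr] at h2
    push_cast at h2
    omega
  · have h2 := FF.sum_ord_le hF htr {P} (by
      intro Q hQ
      rw [Finset.mem_singleton] at hQ
      rw [hQ]
      exact h)
    rw [Finset.sum_singleton, hfr] at h2
    push_cast at h2
    omega

variable (hF : IsFunctionField E F) {X : F} (hX : Transcendental E X) (hg : E⟮X⟯ = ⊤)

include hg in
theorem gen_sub (e : E) : E⟮X - algebraMap E F e⟯ = ⊤ := by
  rw [eq_top_iff, ← hg]
  refine IntermediateField.adjoin_le_iff.2 ?_
  intro z hz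
  rw [Set.mem_singleton_iff] at hz
  rw [hz]
  have h3 := add_mem (IntermediateField.mem_adjoin_simple_self E (X - algebraMap E F e))
    (IntermediateField.algebraMap_mem E⟮X - algebraMap E F e⟯ e)
  rwa [sub_add_cancel] at h3

include hg in
theorem gen_inv : E⟮X⁻¹⟯ = ⊤ := by
  rw [eq_top_iff, ← hg]
  refine IntermediateField.adjoin_le_iff.2 ?_
  intro z hz
  rw [Set.mem_singleton_iff] at hz
  rw [hz]
  have h3 := inv_mem (IntermediateField.mem_adjoin_simple_self E X⁻¹)
  rwa [inv_inv] at h3

include hX in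
theorem tr_inv : Transcendental E X⁻¹ := by
  intro h
  apply hX
  have := h.inv
  rwa [inv_inv] at this

include hX in
theorem X_ne : X ≠ 0 := by
  rintro rfl
  exact hX isAlgebraic_zero

omit [IsAlgClosed E] in
theorem inf_nonunits {P : Place E F} (h : X ∉ P.ring) : X⁻¹ ∈ P.ring.nonunits := by
  rw [ValuationSubring.mem_nonunits_iff_or, inv_inv]
  exact Or.inr h

omit [IsAlgClosed E] in
theorem mem_of_fin {P : Place E F} {e : E} (h : X - algebraMap E F e ∈ P.ring.nonunits) :
    X ∈ P.ring := by
  have h1 := add_mem (P.ring.nonunits_subset h) (P.algebraMap_mem e)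
  rwa [sub_add_cancel] at h1

include hF hX hg

theorem fin_unique {P P' : Place E F} {e : E} (h : X - algebraMap E F e ∈ P.ring.nonunits)
    (h' : X - algebraMap E F e ∈ P'.ring.nonunits) : P = P' :=
  (zero_unique hF (Pool.Agent.TOW.KX2aux.X_sub_tr hX e) (gen_sub hg e) h h').1

theorem ord_fin_one {P : Place E F} {e : E} (h : X - algebraMap E F e ∈ P.ring.nonunits) :
    ord P.ring (X - algebraMap E F e) = 1 :=
  (zero_unique hF (Pool.Agent.TOW.KX2aux.X_sub_tr hX e) (gen_sub hg e) h h).2

theorem inf_unique {P P' : Place E F} (h : X ∉ P.ring) (h' : X ∉ P'.ring) : P = P' :=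
  (zero_unique hF (tr_inv hX) (gen_inv hg) (inf_nonunits h) (inf_nonunits h')).1

omit hF hg in
theorem exists_fin (e : E) : ∃ P : Place E F, X - algebraMap E F e ∈ P.ring.nonunits :=
  FF.exists_place (Pool.Agent.TOW.KX2aux.X_sub_tr hX e)

omit hF hg in
theorem exists_inf : ∃ P : Place E F, X ∉ P.ring := by
  obtain ⟨P, hP⟩ := FF.exists_place (tr_inv hX)
  refine ⟨P, ?_⟩
  rw [ValuationSubring.mem_nonunits_iff_or, inv_inv] at hP
  rcases hP with h | h
  · exact absurd (inv_eq_zero.1 h) (X_ne hX)
  · exact h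

omit hg hX in
theorem cases (P : Place E F) : X ∉ P.ring ∨ ∃ e : E, X - algebraMap E F e ∈ P.ring.nonunits := by
  by_cases h : X ∈ P.ring
  · obtain ⟨e, he⟩ := FF.exists_residue hF P h
    exact Or.inr ⟨e, he⟩
  · exact Or.inl h

theorem ord_fin {P : Place E F} {e : E} (h : X - algebraMap E F e ∈ P.ring.nonunits) {p : E[X]}
    (hp : p ≠ 0) : ord P.ring (aeval X p) = p.rootMultiplicity e := by
  obtain ⟨q, hq, hnd⟩ := exists_eq_pow_rootMultiplicity_mul_and_not_dvd p hp e
  have hq0 : q ≠ 0 := by
    rintro rfl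
    exact hnd (dvd_zero _)
  have hqe : eval e q ≠ 0 := fun h0 => hnd (dvd_iff_isRoot.2 h0)
  have hinj : Function.Injective (aeval (R := E) X) := transcendental_iff_injective.1 hX
  have hqX : aeval X q ≠ 0 := fun h0 => hq0 (hinj (by rw [h0, map_zero]))
  -- the value of `q`
  obtain ⟨q', hq'⟩ : ∃ q' : E[X], q = C (eval e q) + (Polynomial.X - C e) * q' := by
    have h1 : (Polynomial.X - C e) ∣ q - C (eval e q) := by
      rw [dvd_iff_isRoot, IsRoot.def, eval_sub, eval_C, sub_self]
    obtain ⟨q', h2⟩ := h1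
    exact ⟨q', by rw [← h2]; ring⟩
  have hXm := mem_of_fin h
  have hpm : ∀ p : E[X], aeval X p ∈ P.ring := by
    intro p
    induction p using Polynomial.induction_on' with
    | add p q hp hq => rw [map_add]; exact add_mem hp hq
    | monomial n a =>
      rw [aeval_monomial]
      exact mul_mem (P.algebraMap_mem a) (pow_mem hXm n)
  have hq1 : ord P.ring (aeval X q) = 0 := by
    by_cases hq'0 : aeval X q' = 0
    · rw [hq', map_add, map_mul, hq'0, mul_zero, add_zero, aeval_C]
      exact FF.ord_algebraMap hF P hqe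
    · have h2 := FF.ord_add_eq_left hF P (f := algebraMap E F (eval e q))
        (g := (X - algebraMap E F e) * aeval X q') ((_root_.map_ne_zero _).2 hqe)
        (mul_ne_zero (Pool.Agent.TOW.KX2aux.X_sub_ne hX e) hq'0) (by
          rw [FF.ord_algebraMap hF P hqe, FF.ord_mul hF P
            (Pool.Agent.TOW.KX2aux.X_sub_ne hX e) hq'0, ord_fin_one hF hX hg h]
          have := (FF.ord_nonneg_iff hF P hq'0).2 (hpm q')
          omega)
      have h3 : aeval X q = algebraMap E F (eval e q) +
          (X - algebraMap E F e) * aeval X q' := by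
        conv_lhs => rw [hq']
        rw [map_add, map_mul, map_sub, aeval_X, aeval_C, aeval_C]
      rw [h3, h2.2, FF.ord_algebraMap hF P hqe]
  have h4 : aeval X p = (X - algebraMap E F e) ^ p.rootMultiplicity e * aeval X q := by
    conv_lhs => rw [hq]
    rw [map_mul, map_pow, map_sub, aeval_X, aeval_C]
  rw [h4, FF.ord_mul hF P (pow_ne_zero _ (Pool.Agent.TOW.KX2aux.X_sub_ne hX e)) hqX, hq1, add_zero,
    ← zpow_natCast, FF.ord_zpow hF P (Pool.Agent.TOW.KX2aux.X_sub_ne hX e),
    ord_fin_one hF hX hg h, mul_one]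

theorem ord_inf {P : Place E F} (h : X ∉ P.ring) {p : E[X]} (hp : p ≠ 0) :
    ord P.ring (aeval X p) = -(p.natDegree : ℤ) := by
  obtain ⟨P₀, h1, h2, h3⟩ := Pool.Agent.TOW.exists_zero17 X⁻¹ (tr_inv hX) (gen_inv hg)
  have h4 := h3 P.ring P.algebraMap_mem (inf_nonunits h)
  have h5 := h2 p hp
  rw [inv_inv] at h5
  rw [h4]
  exact h5

/-- the number of the places at which the order of `p` is prime to `ℓ` -/
theorem card_br {p : E[X]} (hp : p ≠ 0) (ℓ : ℕ) :
    Nat.card {P : Place E F // ¬ (ℓ : ℤ) ∣ ord P.ring (aeval X p)} =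
      Nat.card {e : E // ¬ ℓ ∣ p.rootMultiplicity e} + if ℓ ∣ p.natDegree then 0 else 1 := by
  classical
  choose pl hpl using fun e : E => exists_fin hX e
  obtain ⟨pi, hpi⟩ := exists_inf hX
  let A := {e : E // ¬ ℓ ∣ p.rootMultiplicity e}
  let B := {u : Unit // ¬ ℓ ∣ p.natDegree}
  have hAf : Finite A := by
    refine Set.Finite.to_subtype (s := {e : E | ¬ ℓ ∣ p.rootMultiplicity e})
      ((p.roots.toFinset.finite_toSet).subset ?_)
    intro e he
    have h1 : p.rootMultiplicity e ≠ 0 := fun h0 => he (by rw [h0]; exact dvd_zero _)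
    rw [Finset.mem_coe, Multiset.mem_toFinset, mem_roots hp]
    exact (rootMultiplicity_pos hp).1 (Nat.pos_of_ne_zero h1)
  let g : A ⊕ B → {P : Place E F // ¬ (ℓ : ℤ) ∣ ord P.ring (aeval X p)} :=
    Sum.elim (fun e => ⟨pl e.1, by
      rw [ord_fin hF hX hg (hpl e.1) hp]
      intro h0
      exact e.2 (by exact_mod_cast h0)⟩)
      (fun u => ⟨pi, by
        rw [ord_inf hF hX hg hpi hp]
        intro h0
        have h1 : (ℓ : ℤ) ∣ (p.natDegree : ℤ) := (dvd_neg.1 h0)
        exact u.2 (by exact_mod_cast h1)⟩)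
  have hfinne : ∀ e : E, pl e ≠ pi := fun e h0 => hpi (by
    rw [← h0]
    exact mem_of_fin (hpl e))
  have hg1 : Function.Bijective g := by
    constructor
    · rintro (⟨e, he⟩ | ⟨u, hu⟩) (⟨e', he'⟩ | ⟨u', hu'⟩) h0
      · have h1 : pl e = pl e' := congrArg Subtype.val h0
        have h2 := hpl e
        rw [h1] at h2
        have h3 := hpl e'
        have h4 : e = e' := by
          by_contra hne
          have h5 : X - algebraMap E F e - (X - algebraMap E F e') ∈ (pl e').ring.nonunits := by
            rw [ValuationSubring.mem_nonunits_iff] at h2 h3 ⊢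
            exact Valuation.map_sub_lt _ h2 h3
          rw [sub_sub_sub_cancel_left, ← map_sub, ValuationSubring.mem_nonunits_iff_or] at h5
          rcases h5 with h5 | h5
          · exact hne (sub_eq_zero.1 ((_root_.map_eq_zero _).1 h5)).symm
          · apply h5
            rw [← map_inv₀]
            exact (pl e').algebraMap_mem _
        subst h4
        rfl
      · exact absurd (congrArg Subtype.val h0) (hfinne e)
      · exact absurd (congrArg Subtype.val h0).symm (hfinne e')
      · rfl
    · rintro ⟨P, hP⟩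
      rcases cases hF (X := X) P with h | ⟨e, h⟩
      · refine ⟨Sum.inr ⟨(), ?_⟩, ?_⟩
        · intro h0
          apply hP
          rw [ord_inf hF hX hg h hp, dvd_neg]
          exact_mod_cast h0
        · exact Subtype.ext (inf_unique hF hX hg hpi h)
      · refine ⟨Sum.inl ⟨e, ?_⟩, ?_⟩
        · intro h0
          apply hP
          rw [ord_fin hF hX hg h hp]
          exact_mod_cast h0
        · exact Subtype.ext (fin_unique hF hX hg (hpl e) h)
  rw [← Nat.card_eq_of_bijective g hg1, Nat.card_sum]
  congr 1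
  split_ifs with h0
  · have : IsEmpty B := ⟨fun u => u.2 h0⟩
    exact Nat.card_of_isEmpty
  · have : Nonempty B := ⟨⟨(), h0⟩⟩
    have : Subsingleton B := ⟨fun a b => Subtype.ext rfl⟩
    exact Nat.card_unique

end ff

end Pool.Agent.PD.Line
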