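import Pool.Agent.Helper28.PD.Defs
import Pool.Agent.Helper28.PD.LineA
import Pool.Agent.Helper59.ML.NR
import Pool.Agent.Helper45.M.INTd

/-!
# Project PD, block P11a: the set `R` for the line
-/

set_option autoImplicit false

namespace Pool.Agent.PD

open VC Filter Topology NumberField IsDedekindDomain IntermediateField Pool.Agent.SC
open Pool.Agent.L (Inert L0 MM SamePlace OverV)
open Pool.Agent.LN (Geo Act IsRam DecPt)
open Pool.Agent.M (UR NN Moves OverPl inL0 Cg)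
open Pool.Agent.ML (HasMu BPl)
open Polynomial (aeval)

namespace Line

/-- a root of an irreducible polynomial of degree prime to `ℓ` has a conjugate with orbit of length
prime to `ℓ` -/
theorem orbit_prime {k E : Type} [Field k] [CharZero k] [Field E] [Algebra k E] [IsAlgClosed E]
    [Algebra.IsAlgebraic k E] {ℓ : ℕ} (hℓ : ℓ.Prime) (p : E) (h : ¬ ℓ ∣ (minpoly k p).natDegree)
    (σ : E ≃ₐ[k] E) :
    ∃ τ : E ≃ₐ[k] E, ∃ n : ℕ, ¬ ℓ ∣ n ∧ (σ ^ n) (τ p) = τ p := by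
  classical
  have hac : IsAlgClosure k E := ⟨inferInstance, inferInstance⟩
  have hnorm : Normal k E := IsAlgClosure.normal k E
  have hint : IsIntegral k p := Algebra.IsIntegral.isIntegral p
  have hirr := minpoly.irreducible hint
  have hsep : (minpoly k p).Separable := hirr.separable
  have hcard : Fintype.card ((minpoly k p).rootSet E) = (minpoly k p).natDegree :=
    Polynomial.card_rootSet_eq_natDegree hsep (IsAlgClosed.splits _)
  have hσ : ∀ x ∈ (minpoly k p).rootSet E, σ x ∈ (minpoly k p).rootSet E := by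
    intro x hx
    rw [Polynomial.mem_rootSet] at hx ⊢
    refine ⟨hx.1, ?_⟩
    rw [Polynomial.aeval_algHom_apply σ, hx.2, map_zero]
  have hσ' : ∀ x ∈ (minpoly k p).rootSet E, σ.symm x ∈ (minpoly k p).rootSet E := by
    intro x hx
    rw [Polynomial.mem_rootSet] at hx ⊢
    refine ⟨hx.1, ?_⟩
    rw [Polynomial.aeval_algHom_apply σ.symm, hx.2, map_zero]
  let π : Equiv.Perm ((minpoly k p).rootSet E) :=
    { toFun := fun x => ⟨σ x.1, hσ x.1 x.2⟩
      invFun := fun x => ⟨σ.symm x.1, hσ' x.1 x.2⟩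
      left_inv := fun x => Subtype.ext (σ.symm_apply_apply _)
      right_inv := fun x => Subtype.ext (σ.apply_symm_apply _) }
  have hπ : ∀ (n : ℕ) (x : (minpoly k p).rootSet E), ((π ^ n) x).1 = (σ ^ n) x.1 := by
    intro n
    induction n with
    | zero => intro x; rfl
    | succ n ih =>
      intro x
      rw [pow_succ, Equiv.Perm.mul_apply, ih, pow_succ, AlgEquiv.mul_apply]
      rfl
  obtain ⟨a, m, hm, ham⟩ : ∃ a m : ℕ, ¬ ℓ ∣ m ∧ orderOf π = ℓ ^ a * m := by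
    obtain ⟨a, m, h1, h2⟩ := Nat.exists_eq_pow_mul_and_not_dvd (orderOf_pos π).ne' ℓ hℓ.ne_one
    exact ⟨a, m, h1, h2⟩
  have h1 : (π ^ m) ^ ℓ ^ a = 1 := by
    rw [← pow_mul, mul_comm, ← ham, pow_orderOf_eq_one]
  have : Fact ℓ.Prime := ⟨hℓ⟩
  obtain ⟨x, hx'⟩ := Equiv.Perm.exists_fixed_point_of_prime (p := ℓ) (n := a) (σ := π ^ m) (by
    rw [hcard]
    exact h) h1
  have hx2 := x.2
  rw [Polynomial.mem_rootSet] at hx2
  obtain ⟨τ, hτ⟩ := minpoly.exists_algEquiv_of_root' (hint.isAlgebraic) hx2.2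
  refine ⟨τ, m, hm, ?_⟩
  rw [hτ, ← hπ, hx']

/-- conjugate roots have the same multiplicity -/
theorem mult_conj {k E : Type} [Field k] [Field E] [Algebra k E] (f : Polynomial k)
    (τ : E ≃ₐ[k] E) (p : E) :
    (f.map (algebraMap k E)).rootMultiplicity (τ p) =
      (f.map (algebraMap k E)).rootMultiplicity p := by
  have h1 := Polynomial.eq_rootMultiplicity_map (p := f.map (algebraMap k E))
    (f := (τ : E →+* E)) τ.injective p
  have h2 : (f.map (algebraMap k E)).map (τ : E →+* E) = f.map (algebraMap k E) := by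
    rw [Polynomial.map_map]
    congr 1
    ext a
    exact τ.commutes a
  rw [h2] at h1
  exact h1.symm

theorem mult_map {k E : Type} [Field k] [Field E] [Algebra k E] (f : Polynomial k) (α : k) :
    (f.map (algebraMap k E)).rootMultiplicity (algebraMap k E α) = f.rootMultiplicity α :=
  (Polynomial.eq_rootMultiplicity_map (algebraMap k E).injective α).symm

section

variable {k K0 E U : Type} [Field k] [NumberField k] [Field K0] [Field E] [Field U]
  [Algebra k K0] [Algebra k E] [Algebra E U] [Algebra K0 U] [Algebra k U] [IsScalarTower k E U]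
  [IsScalarTower k K0 U] {ℓ : ℕ} {x : K0} {f : Polynomial k} {r : U}

theorem trL (H : HypL E ℓ x f r) : Transcendental E (inL0 (E := E) (U := U) x) := by
  have halg : Algebra.IsAlgebraic k E := H.geo.algE
  intro h
  have h0 : IsAlgebraic E (algebraMap K0 U x) := (isAlgebraic_algebraMap_iff (R := E) (A := U)
    (algebraMap (L0 E K0 (U := U)) U).injective).2 h
  have h1 : IsAlgebraic k (algebraMap K0 U x) := h0.restrictScalars k
  exact H.tr ((isAlgebraic_algebraMap_iff (algebraMap K0 U).injective).1 h1)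

theorem genL (H : HypL E ℓ x f r) : E⟮inL0 (E := E) (U := U) x⟯ = ⊤ := by
  obtain ⟨F, hF⟩ : ∃ F : IntermediateField E (L0 E K0 (U := U)), F = IntermediateField.adjoin E
    {inL0 (E := E) (U := U) x} := ⟨_, rfl⟩
  rw [← hF]
  have hx : inL0 (E := E) (U := U) x ∈ F := by
    rw [hF]
    exact IntermediateField.mem_adjoin_simple_self E _
  have hK : ∀ y : K0, inL0 (E := E) (U := U) y ∈ F := by
    intro y
    have hy : y ∈ IntermediateField.adjoin k {x} := by
      rw [H.gen]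
      trivial
    induction hy using IntermediateField.adjoin_induction with
    | mem y hy =>
      rw [Set.mem_singleton_iff] at hy
      rw [hy]
      exact hx
    | algebraMap a =>
      have h1 : inL0 (E := E) (U := U) (algebraMap k K0 a) =
          algebraMap E (L0 E K0 (U := U)) (algebraMap k E a) := by
        apply Subtype.ext
        change algebraMap K0 U (algebraMap k K0 a) = algebraMap E U (algebraMap k E a)
        rw [← IsScalarTower.algebraMap_apply k K0 U, ← IsScalarTower.algebraMap_apply k E U]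
      rw [h1]
      exact F.algebraMap_mem _
    | add y z _ _ h1 h2 =>
      have h3 : inL0 (E := E) (U := U) (y + z) = inL0 y + inL0 z :=
        Subtype.ext (map_add (algebraMap K0 U) y z)
      rw [h3]
      exact add_mem h1 h2
    | inv y _ h1 =>
      have h3 : inL0 (E := E) (U := U) y⁻¹ = (inL0 y)⁻¹ := Subtype.ext (map_inv₀ (algebraMap K0 U) y)
      rw [h3]
      exact inv_mem h1
    | mul y z _ _ h1 h2 =>
      have h3 : inL0 (E := E) (U := U) (y * z) = inL0 y * inL0 z :=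
        Subtype.ext (map_mul (algebraMap K0 U) y z)
      rw [h3]
      exact mul_mem h1 h2
  rw [eq_top_iff]
  rintro ⟨z, hz⟩ -
  change z ∈ IntermediateField.adjoin E (Set.range (algebraMap K0 U)) at hz
  have key : ∀ z ∈ IntermediateField.adjoin E (Set.range (algebraMap K0 U)),
      ∃ hz : z ∈ L0 E K0 (U := U), (⟨z, hz⟩ : L0 E K0 (U := U)) ∈ F := by
    intro z hz
    induction hz using IntermediateField.adjoin_induction with
    | mem y hy =>
      obtain ⟨c, rfl⟩ := hy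
      exact ⟨(inL0 (E := E) (U := U) c).2, hK c⟩
    | algebraMap e => exact ⟨(L0 E K0 (U := U)).algebraMap_mem e, F.algebraMap_mem e⟩
    | add y z _ _ h1 h2 =>
      obtain ⟨h1, h1'⟩ := h1
      obtain ⟨h2, h2'⟩ := h2
      exact ⟨add_mem h1 h2, add_mem h1' h2'⟩
    | inv y _ h1 =>
      obtain ⟨h1, h1'⟩ := h1
      exact ⟨inv_mem h1, inv_mem h1'⟩
    | mul y z _ _ h1 h2 =>
      obtain ⟨h1, h1'⟩ := h1
      obtain ⟨h2, h2'⟩ := h2
      exact ⟨mul_mem h1 h2, mul_mem h1' h2'⟩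
  exact (key z hz).2

theorem inL0_aeval (x : K0) (f : Polynomial k) : inL0 (E := E) (U := U) (aeval x f) =
    aeval (inL0 (E := E) (U := U) x) (f.map (algebraMap k E)) := by
  apply Subtype.ext
  have h2 := Polynomial.aeval_algHom_apply (L0 E K0 (U := U)).val (inL0 (E := E) (U := U) x)
    (f.map (algebraMap k E))
  have h3 : ((aeval (inL0 (E := E) (U := U) x) (f.map (algebraMap k E)) :
      L0 E K0 (U := U)) : U) = aeval (algebraMap K0 U x) (f.map (algebraMap k E)) := h2.symm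
  rw [h3, Polynomial.aeval_map_algebraMap, Polynomial.aeval_algebraMap_apply]
  rfl

theorem f_ne (hℓ : ℓ.Prime) (H : HypL E ℓ x f r) : f ≠ 0 := by
  rintro rfl
  have h1 := H.geo.rpow
  rw [map_zero, map_zero] at h1
  have h2 : r = 0 := by
    by_contra h0
    exact pow_ne_zero ℓ h0 h1
  exact H.geo.rnot 1 one_pos hℓ.one_lt (by rw [h2, pow_one]; exact zero_mem _)

theorem fE_ne (hℓ : ℓ.Prime) (H : HypL E ℓ x f r) : f.map (algebraMap k E) ≠ 0 := by
  rw [Ne, Polynomial.map_eq_zero]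
  exact f_ne hℓ H

/-- the value of `x` at `b` is `e` -/
def Vl (x : K0) (b : Place E (L0 E K0 (U := U))) (e : E) : Prop :=
  b.ring.valuation (inL0 x - algebraMap E _ e) < 1

theorem Vl.nu {b : Place E (L0 E K0 (U := U))} {e : E} (h : Vl x b e) :
    inL0 (E := E) (U := U) x - algebraMap E (L0 E K0 (U := U)) e ∈ b.ring.nonunits :=
  (ValuationSubring.mem_nonunits_iff _).2 h

theorem Vl.of_nu {b : Place E (L0 E K0 (U := U))} {e : E}
    (h : inL0 (E := E) (U := U) x - algebraMap E (L0 E K0 (U := U)) e ∈ b.ring.nonunits) :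
    Vl x b e := (ValuationSubring.mem_nonunits_iff _).1 h

theorem Vl.mem {b : Place E (L0 E K0 (U := U))} {e : E} (h : Vl x b e) :
    inL0 (E := E) (U := U) x ∈ b.ring := mem_of_fin h.nu

theorem Vl.val_unique {b : Place E (L0 E K0 (U := U))} {e e' : E} (h : Vl x b e)
    (h' : Vl x b e') : e = e' := by
  have h1 : Cg b.ring (inL0 (E := E) (U := U) x) e := h
  exact Cg.unique b.algebraMap_mem h1 h'

theorem Vl.unique (hcl : IsAlgClosed E) (H : HypL E ℓ x f r) {b b' : Place E (L0 E K0 (U := U))}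
    {e : E} (h : Vl x b e) (h' : Vl x b' e) : b = b' :=
  fin_unique H.geo.ff (trL H) (genL H) h.nu h'.nu

theorem In.unique (hcl : IsAlgClosed E) (H : HypL E ℓ x f r) {b b' : Place E (L0 E K0 (U := U))}
    (h : inL0 x ∉ b.ring) (h' : inL0 x ∉ b'.ring) : b = b' :=
  inf_unique H.geo.ff (trL H) (genL H) h h'

theorem bpl_val (hℓ : ℓ.Prime) (H : HypL E ℓ x f r) {b : Place E (L0 E K0 (U := U))} {e : E}
    (h : Vl x b e) : BPl ℓ (aeval x f) b ↔ ¬ ℓ ∣ (f.map (algebraMap k E)).rootMultiplicity e := by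
  have hcl := H.geo.clE
  unfold BPl
  rw [inL0_aeval, ord_fin H.geo.ff (trL H) (genL H) h.nu (fE_ne hℓ H), Int.natCast_dvd_natCast]

theorem bpl_inf (hℓ : ℓ.Prime) (H : HypL E ℓ x f r) {b : Place E (L0 E K0 (U := U))}
    (h : inL0 x ∉ b.ring) : BPl ℓ (aeval x f) b ↔ ¬ ℓ ∣ f.natDegree := by
  have hcl := H.geo.clE
  unfold BPl
  rw [inL0_aeval, ord_inf H.geo.ff (trL H) (genL H) h (fE_ne hℓ H), dvd_neg,
    Int.natCast_dvd_natCast, Polynomial.natDegree_map]

/-! ## The action -/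

variable {c : k} {Φ : (E ≃ₐ[k] E) →* (U ≃+* U)}

theorem xm : algebraMap K0 U x ∈ L0 E K0 (U := U) := subset_adjoin _ _ ⟨x, rfl⟩

theorem Vl.moves (hΦ : Act (K0 := K0) ℓ r c Φ) (g : E ≃ₐ[k] E)
    {b b' : Place E (L0 E K0 (U := U))} {e : E} (h : Vl x b e) (hm : Moves (Φ g) _ b b') :
    Vl x b' (g e) := by
  have hTx : Φ g (algebraMap K0 U x) = algebraMap K0 U x := hΦ.fixK g x
  have hTx' : Φ g (algebraMap K0 U x) ∈ L0 E K0 (U := U) := by rw [hTx]; exact xm
  have h1 : Cg b.ring (⟨algebraMap K0 U x, xm⟩ : L0 E K0 (U := U)) e := h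
  have h2 := (Pool.Agent.M.Moves.cg (σ := g.toRingEquiv) (fun e => hΦ.const g e) hm xm hTx').1 h1
  have e2 : (⟨Φ g (algebraMap K0 U x), hTx'⟩ : L0 E K0 (U := U)) = ⟨algebraMap K0 U x, xm⟩ :=
    Subtype.ext hTx
  rw [e2] at h2
  exact h2

theorem In.moves (hΦ : Act (K0 := K0) ℓ r c Φ) (g : E ≃ₐ[k] E)
    {b b' : Place E (L0 E K0 (U := U))} (h : inL0 x ∉ b.ring) (hm : Moves (Φ g) _ b b') :
    inL0 x ∉ b'.ring := by
  have hTx : Φ g (algebraMap K0 U x) = algebraMap K0 U x := hΦ.fixK g x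
  have hTx' : Φ g (algebraMap K0 U x) ∈ L0 E K0 (U := U) := by rw [hTx]; exact xm
  intro hmem
  apply h
  refine (hm _ xm hTx').2 ?_
  have e2 : (⟨Φ g (algebraMap K0 U x), hTx'⟩ : L0 E K0 (U := U)) = ⟨algebraMap K0 U x, xm⟩ :=
    Subtype.ext hTx
  rw [e2]
  exact hmem

theorem Vl.mv (hℓ : ℓ.Prime) (hμ : HasMu k ℓ) (H : HypL E ℓ x f r) (hc : c ≠ 0)
    (hΦ : Act (K0 := K0) ℓ r c Φ) (g : E ≃ₐ[k] E) {b b' : Place E (L0 E K0 (U := U))} {e : E}
    (h : Vl x b e) (h' : Vl x b' (g e)) : Moves (Φ g) _ b b' := by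
  obtain ⟨b'', hb'', -⟩ := ((Pool.Agent.ML.nR k K0 E U ℓ ℓ _ r hℓ.pos hℓ dvd_rfl hμ H.geo).2 c Φ hc
    hΦ).1 g b
  rw [h'.unique H.geo.clE H (h.moves hΦ g hb'')]
  exact hb''

theorem In.mv (hℓ : ℓ.Prime) (hμ : HasMu k ℓ) (H : HypL E ℓ x f r) (hc : c ≠ 0)
    (hΦ : Act (K0 := K0) ℓ r c Φ) (g : E ≃ₐ[k] E) {b : Place E (L0 E K0 (U := U))}
    (h : inL0 x ∉ b.ring) : Moves (Φ g) _ b b := by
  obtain ⟨b'', hb'', -⟩ := ((Pool.Agent.ML.nR k K0 E U ℓ ℓ _ r hℓ.pos hℓ dvd_rfl hμ H.geo).2 c Φ hc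
    hΦ).1 g b
  have h1 := In.unique H.geo.clE H h (In.moves hΦ g h hb'')
  rw [← h1] at hb''
  exact hb''

theorem exists_vl (H : HypL E ℓ x f r) (e : E) :
    ∃ b : Place E (L0 E K0 (U := U)), Vl x b e := by
  have hcl := H.geo.clE
  obtain ⟨b, hb⟩ := exists_fin (trL H) e
  exact ⟨b, Vl.of_nu hb⟩

theorem exists_in (H : HypL E ℓ x f r) :
    ∃ b : Place E (L0 E K0 (U := U)), inL0 x ∉ b.ring := by
  have hcl := H.geo.clE
  exact exists_inf (trL H)

theorem cases_vl (H : HypL E ℓ x f r) (b : Place E (L0 E K0 (U := U))) :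
    inL0 x ∉ b.ring ∨ ∃ e : E, Vl x b e := by
  have hcl := H.geo.clE
  rcases cases H.geo.ff (X := inL0 (E := E) (U := U) x) b with h | ⟨e, h⟩
  · exact Or.inl h
  · exact Or.inr ⟨e, Vl.of_nu h⟩

/-- the number of the branch places -/
theorem card_bpl (hℓ : ℓ.Prime) (H : HypL E ℓ x f r) :
    Nat.card {b : Place E (L0 E K0 (U := U)) // BPl ℓ (aeval x f) b} = nBr E ℓ f := by
  have hcl := H.geo.clE
  have h1 := card_br H.geo.ff (trL H) (genL H) (fE_ne hℓ H) ℓ
  rw [← inL0_aeval, Polynomial.natDegree_map] at h1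
  exact h1

/-- a third branch place -/
theorem third (hℓ : ℓ.Prime) (hμ : HasMu k ℓ) (H : HypL E ℓ x f r) {S : Set E}
    (hS : ∀ e ∈ S, ∃ α : k, e = algebraMap k E α) (h : Third E ℓ f S) (hc : c ≠ 0)
    (hΦ : Act (K0 := K0) ℓ r c Φ) (σ : E ≃ₐ[k] E) :
    ∃ (b : Place E (L0 E K0 (U := U))) (e : E), Vl x b e ∧ e ∉ S ∧ BPl ℓ (aeval x f) b ∧
      ∃ n : ℕ, ¬ ℓ ∣ n ∧ Moves (Φ (σ ^ n)) _ b b := by
  have hcl : IsAlgClosed E := H.geo.clE
  have halg : Algebra.IsAlgebraic k E := H.geo.algE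
  obtain ⟨p, hpS, hp, hdeg⟩ := h
  obtain ⟨τ, n, hn, hfix⟩ := orbit_prime hℓ p hdeg σ
  obtain ⟨b, hb⟩ := exists_vl H (τ p)
  refine ⟨b, τ p, hb, ?_, ?_, n, hn, ?_⟩
  · intro hmem
    obtain ⟨α, hα⟩ := hS _ hmem
    apply hpS
    have h1 : p = algebraMap k E α := by
      apply τ.injective
      rw [hα, τ.commutes]
    rw [h1, ← hα]
    exact hmem
  · rw [bpl_val hℓ H hb, mult_conj]
    exact hp
  · refine hb.mv hℓ hμ H hc hΦ _ ?_
    rw [hfix]
    exact hb

end

end Line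

open Line

/-- **BLOCK P11a.** -/
theorem rS : StmtRS := by
  intro k K0 E U _ _ _ _ _ _ _ _ _ _ _ _ ℓ x f r hℓ hμ H hN hR
  classical
  have hcl : IsAlgClosed E := H.geo.clE
  have halg : Algebra.IsAlgebraic k E := H.geo.algE
  have hclo : IsAlgClosure k E := ⟨hcl, halg⟩
  have hnorm : Normal k E := IsAlgClosure.normal k E
  have hgal : IsGalois k E := ⟨⟩
  have hnr := Pool.Agent.ML.nR k K0 E U ℓ ℓ _ r hℓ.pos hℓ dvd_rfl hμ H.geo
  have hfin := hnr.1
  obtain ⟨R, hRdef⟩ : ∃ R : Finset (Place E (L0 E K0 (U := U))), R = hfin.toFinset.filter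
    (fun b => RatPl (k := k) x b) := ⟨_, rfl⟩
  have hRm : ∀ b, b ∈ R ↔ BPl ℓ (aeval x f) b ∧ RatPl (k := k) x b := by
    intro b
    rw [hRdef, Finset.mem_filter, Set.Finite.mem_toFinset]
    rfl
  obtain ⟨bi, hbi⟩ := exists_in H
  have hmulti : ∀ {α : k} {b : Place E (L0 E K0 (U := U))}, Vl x b (algebraMap k E α) →
      (BPl ℓ (aeval x f) b ↔ ¬ ℓ ∣ f.rootMultiplicity α) := by
    intro α b h
    rw [bpl_val hℓ H h, mult_map]
  refine ⟨R, ⟨?_, ?_, ?_, ?_, ?_, ?_⟩, hRm⟩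
  · rcases hR with ⟨α, hα⟩ | hd
    · obtain ⟨b, hb⟩ := exists_vl H (algebraMap k E α)
      exact ⟨b, (hRm b).2 ⟨(hmulti hb).2 hα, Or.inr ⟨α, hb⟩⟩⟩
    · exact ⟨bi, (hRm bi).2 ⟨(bpl_inf hℓ H hbi).2 hd, Or.inl hbi⟩⟩
  · intro b hb
    exact ((hRm b).1 hb).1
  · intro b hb c Φ hc hΦ σ
    rcases ((hRm b).1 hb).2 with h | ⟨α, h⟩
    · exact In.mv hℓ hμ H hc hΦ σ h
    · refine Vl.mv hℓ hμ H hc hΦ σ (e := algebraMap k E α) h ?_
      rw [σ.commutes]
      exact h
  · intro c Φ hc hΦ b hb hbR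
    rcases cases_vl H b with h | ⟨e, h⟩
    · exact absurd ((hRm b).2 ⟨hb, Or.inl h⟩) hbR
    · have hσ : ∃ σ : E ≃ₐ[k] E, σ e ≠ e := by
        by_contra hcon
        push Not at hcon
        have h1 : e ∈ (⊥ : IntermediateField k E) :=
          (InfiniteGalois.mem_bot_iff_fixed e).2 hcon
        obtain ⟨a, ha⟩ := IntermediateField.mem_bot.1 h1
        apply hbR
        rw [hRm]
        refine ⟨hb, Or.inr ⟨a, ?_⟩⟩
        rw [ha]
        exact h
      obtain ⟨σ, hσ⟩ := hσ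
      exact ⟨σ, fun hm => hσ ((h.moves hΦ σ hm).val_unique h)⟩
  · rw [card_bpl hℓ H]
    exact hN.num
  · intro a ha b hb hab
    obtain ⟨ha1, ha2⟩ := (hRm a).1 ha
    obtain ⟨hb1, hb2⟩ := (hRm b).1 hb
    -- infinity and a finite place
    have keyI : ∀ (a b : Place E (L0 E K0 (U := U))) (β : k), inL0 x ∉ a.ring →
        Vl x b (algebraMap k E β) → BPl ℓ (aeval x f) a → BPl ℓ (aeval x f) b →
        ℓ ≠ 2 ∧ ∀ (c : k) (Φ : (E ≃ₐ[k] E) →* (U ≃+* U)), c ≠ 0 →
        Act (K0 := K0) ℓ r c Φ → ∀ σ : E ≃ₐ[k] E, ∃ b₃ : Place E (L0 E K0 (U := U)),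
          BPl ℓ (aeval x f) b₃ ∧ b₃ ≠ a ∧ b₃ ≠ b ∧ ∃ n : ℕ, ¬ ℓ ∣ n ∧ Moves (Φ (σ ^ n)) _ b₃ b₃ := by
      intro a b β h h' ha1 hb1
      obtain ⟨h1, h2⟩ := hN.pairI β ((hmulti h').1 hb1) ((bpl_inf hℓ H h).1 ha1)
      refine ⟨h1, fun c Φ hc hΦ σ => ?_⟩
      obtain ⟨b₃, e, h3, h4, h5, n, hn, h6⟩ := third hℓ hμ H (by
        intro e he
        rw [Set.mem_singleton_iff] at he
        exact ⟨β, he⟩) h2 hc hΦ σ
      refine ⟨b₃, h5, ?_, ?_, n, hn, h6⟩
      · rintro rfl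
        exact h h3.mem
      · rintro rfl
        exact h4 (Set.mem_singleton_iff.2 (h3.val_unique h'))
    rcases ha2 with h | ⟨α, h⟩
    · rcases hb2 with h' | ⟨β, h'⟩
      · exact absurd (In.unique hcl H h h') hab
      · exact keyI a b β h h' ha1 hb1
    · rcases hb2 with h' | ⟨β, h'⟩
      · obtain ⟨h1, h2⟩ := keyI b a α h' h hb1 ha1
        refine ⟨h1, fun c Φ hc hΦ σ => ?_⟩
        obtain ⟨b₃, g1, g2, g3, g4⟩ := h2 c Φ hc hΦ σ
        exact ⟨b₃, g1, g3, g2, g4⟩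
      · have hαβ : α ≠ β := by
          rintro rfl
          exact hab (Vl.unique hcl H h h')
        obtain ⟨h1, h2⟩ := hN.pair α β hαβ ((hmulti h).1 ha1) ((hmulti h').1 hb1)
        refine ⟨h1, fun c Φ hc hΦ σ => ?_⟩
        rcases h2 with h2 | h2
        · refine ⟨bi, (bpl_inf hℓ H hbi).2 h2, ?_, ?_, 1, ?_, In.mv hℓ hμ H hc hΦ _ hbi⟩
          · rintro rfl
            exact hbi (Vl.mem (e := algebraMap k E α) h)
          · rintro rfl
            exact hbi (Vl.mem (e := algebraMap k E β) h')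
          · exact fun h0 => hℓ.one_lt.ne' (Nat.dvd_one.1 h0)
        · obtain ⟨b₃, e, h3, h4, h5, n, hn, h6⟩ := third hℓ hμ H (by
            intro e he
            rcases he with he | he
            · exact ⟨α, he⟩
            · exact ⟨β, he⟩) h2 hc hΦ σ
          refine ⟨b₃, h5, ?_, ?_, n, hn, h6⟩
          · rintro rfl
            exact h4 (Or.inl (h3.val_unique h))
          · rintro rfl
            exact h4 (Or.inr (h3.val_unique h'))

end Pool.Agent.PD
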