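import Pool.Agent.Helper28.PD.RS
import Pool.Agent.Helper70.PD2.Defs
import Pool.Agent.Helper99.TW3.GalE

/-!
# Project PD, block E2: `ManyRat` for `y ^ 2 = f(x)`
-/

set_option autoImplicit false

namespace Pool.Agent.PDL

open VC Filter Topology NumberField IsDedekindDomain IntermediateField Pool.Agent.SC
open Pool.Agent.L (L0 MM)
open Pool.Agent.M (OverPl Moves IsZ NN sgn inL0 Cg)
open Pool.Agent.PD.Line (Vl bpl_val bpl_inf exists_vl exists_in cases_vl)
open Polynomial (aeval)

namespace E2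

section poly

variable {k E : Type} [Field k] [Field E] [Algebra k E]

theorem map_map28 (g : E ≃ₐ[k] E) (A : Option k) :
    (A.map (algebraMap k E)).map g = A.map (algebraMap k E) := by
  cases A with
  | none => rfl
  | some a => exact congrArg some (g.commutes a)

theorem map_inj28 (g : E ≃ₐ[k] E) {o o' : Option E} (h : o.map g = o'.map g) : o = o' :=
  Option.map_injective g.injective h

theorem brP_map28 (g : E ≃ₐ[k] E) (f : Polynomial k) (o : Option E) :
    BrP 2 f (o.map g) ↔ BrP 2 f o := by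
  cases o with
  | none => exact Iff.rfl
  | some e =>
    show ¬ 2 ∣ _ ↔ ¬ 2 ∣ _
    rw [PD.Line.mult_conj]

theorem dif_map28 (g : E ≃ₐ[k] E) (o o' : Option E) :
    dif (o.map g) (o'.map g) = g (dif o o') := by
  cases o with
  | none => exact (map_one g).symm
  | some e =>
    cases o' with
    | none => exact (map_one g).symm
    | some e' => exact (map_sub g e e').symm

theorem dif_ne28 {o o' : Option E} (h : o ≠ o') : dif o o' ≠ 0 := by
  cases o with
  | none => exact one_ne_zero
  | some e =>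
    cases o' with
    | none => exact one_ne_zero
    | some e' =>
      show e - e' ≠ 0
      exact sub_ne_zero.2 fun h1 => h (by rw [h1])

/-- the differences are in the field generated by the points -/
theorem dif_mem28 (M : IntermediateField k E) {o : Option E} (A : Option k)
    (ho : ∀ e : E, o = some e → e ∈ M) : dif o (A.map (algebraMap k E)) ∈ M := by
  cases o with
  | none => exact one_mem _
  | some e =>
    cases A with
    | none => exact one_mem _
    | some a => exact sub_mem (ho e rfl) (M.algebraMap_mem a)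

end poly

section

variable {k K0 E U : Type} [Field k] [NumberField k] [Field K0] [Field E] [Field U]
  [Algebra k K0] [Algebra k E] [Algebra E U] [Algebra K0 U] [Algebra k U] [IsScalarTower k E U]
  [IsScalarTower k K0 U] {x : K0} {f : Polynomial k} {r : U}

omit [NumberField k] [IsScalarTower k E U] [IsScalarTower k K0 U] in
/-- an action in the sense of project L is one in the sense of project LN -/
theorem act28 (hcl : IsAlgClosed E) {c : k} {Φ : (E ≃ₐ[k] E) →* (U ≃+* U)}
    (h : L.Act (K0 := K0) r c Φ) : LN.Act (K0 := K0) 2 r c Φ where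
  const := h.const
  fixK := h.fixK
  tw := by
    obtain ⟨d, hd⟩ := IsAlgClosed.exists_pow_nat_eq (algebraMap k E c) two_pos
    exact ⟨d, hd, fun g => h.tw g d hd⟩
  cont := h.cont

theorem hasMu_two28 (k : Type) [Field k] [CharZero k] : ML.HasMu k 2 :=
  ⟨-1, IsPrimitiveRoot.neg_one 0 (by norm_num)⟩

theorem hyp28 (H : HypL E 2 x f r) : PD.HypL E 2 x f r := ⟨H.geo, H.gen, H.tr⟩

theorem at_unique28 (H : HypL E 2 x f r) {b b' : Place E (L0 E K0 (U := U))} {o : Option E}
    (h : At x b o) (h' : At x b' o) : b = b' := by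
  cases o with
  | none => exact PD.Line.In.unique H.geo.clE (hyp28 H) h h'
  | some e => exact PD.Line.Vl.unique (e := e) H.geo.clE (hyp28 H) h h'

omit [NumberField k] [Algebra k K0] [Algebra k U] [IsScalarTower k E U] [IsScalarTower k K0 U] in
theorem at_pt28 {b : Place E (L0 E K0 (U := U))} {o o' : Option E}
    (h : At x b o) (h' : At x b o') : o = o' := by
  cases o with
  | none =>
    cases o' with
    | none => rfl
    | some e' => exact absurd (PD.Line.Vl.mem (x := x) (e := e') h') h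
  | some e =>
    cases o' with
    | none => exact absurd (PD.Line.Vl.mem (x := x) (e := e) h) h'
    | some e' => exact congrArg some (PD.Line.Vl.val_unique (x := x) (e := e) (e' := e') h h')

theorem at_ne28 {b b' : Place E (L0 E K0 (U := U))} {o o' : Option E}
    (h : At x b o) (h' : At x b' o') (hne : o ≠ o') : b ≠ b' := by
  rintro rfl
  exact hne (at_pt28 h h')

theorem exists_at28 (H : HypL E 2 x f r) (o : Option E) :
    ∃ b : Place E (L0 E K0 (U := U)), At x b o := by
  cases o with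
  | none => exact exists_in (hyp28 H)
  | some e => exact exists_vl (hyp28 H) e

theorem at_cases28 (H : HypL E 2 x f r) (b : Place E (L0 E K0 (U := U))) :
    ∃ o : Option E, At x b o := by
  rcases cases_vl (hyp28 H) b with h | ⟨e, h⟩
  · exact ⟨none, h⟩
  · exact ⟨some e, h⟩

theorem bpl_at28 (H : HypL E 2 x f r) {b : Place E (L0 E K0 (U := U))} {o : Option E}
    (h : At x b o) : M.BPl (aeval x f) b ↔ BrP 2 f o := by
  cases o with
  | none => exact bpl_inf Nat.prime_two (hyp28 H) h
  | some e => exact bpl_val Nat.prime_two (hyp28 H) (e := e) h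

variable {c : k} {Φ : (E ≃ₐ[k] E) →* (U ≃+* U)}

theorem at_moves28 (hcl : IsAlgClosed E) (hΦ : L.Act (K0 := K0) r c Φ) (g : E ≃ₐ[k] E)
    {b b' : Place E (L0 E K0 (U := U))} {o : Option E} (h : At x b o) (hm : Moves (Φ g) _ b b') :
    At x b' (o.map g) := by
  cases o with
  | none => exact PD.Line.In.moves (act28 hcl hΦ) g h hm
  | some e => exact PD.Line.Vl.moves (e := e) (act28 hcl hΦ) g h hm

theorem at_mv28 (H : HypL E 2 x f r) (hc : c ≠ 0) (hΦ : L.Act (K0 := K0) r c Φ) (g : E ≃ₐ[k] E)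
    {b b' : Place E (L0 E K0 (U := U))} {o : Option E} (h : At x b o) (h' : At x b' (o.map g)) :
    Moves (Φ g) _ b b' := by
  have hcl := H.geo.clE
  cases o with
  | none =>
    have h1 : b' = b := PD.Line.In.unique hcl (hyp28 H) h' h
    rw [h1]
    exact PD.Line.In.mv Nat.prime_two (hasMu_two28 k) (hyp28 H) hc (act28 hcl hΦ) g h
  | some e => exact PD.Line.Vl.mv (e := e) Nat.prime_two (hasMu_two28 k) (hyp28 H) hc
                (act28 hcl hΦ) g h h'

/-- the pair condition -/
theorem pairC28 (hSG : StmtSG2) (H : HypL E 2 x f r) (hC : Cross k E f) {A B : Option k}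
    (hAB : A ≠ B) {a b : Place E (L0 E K0 (U := U))} (ha : At x a (A.map (algebraMap k E)))
    (hb : At x b (B.map (algebraMap k E))) (hA : BrP 2 f (A.map (algebraMap k E)))
    (hB : BrP 2 f (B.map (algebraMap k E))) :
    TW3.PairC (k := k) (aeval x f) r a b
      (Tr2 x f (A.map (algebraMap k E)) (B.map (algebraMap k E))) where
  br := by
    rintro b₁ b₂ d ⟨p, q, h1, h2, h3, h4, h5, h6, h7, h8, h9, h10⟩
    refine ⟨?_, (bpl_at28 H h1).2 h3, (bpl_at28 H h2).2 h4, at_ne28 h1 h2 h5, at_ne28 h1 ha h6,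
      at_ne28 h1 hb h7, at_ne28 h2 ha h8, at_ne28 h2 hb h9⟩
    rintro rfl
    rw [zero_pow two_ne_zero] at h10
    exact mul_ne_zero (mul_ne_zero (dif_ne28 h6) (dif_ne28 h7))
      (mul_ne_zero (dif_ne28 h8) (dif_ne28 h9)) h10.symm
  conj := by
    rintro c Φ hc hΦ g b₁ b₂ b₁' b₂' d ⟨p, q, h1, h2, h3, h4, h5, h6, h7, h8, h9, h10⟩ hm1 hm2
    have hne : ∀ {p : Option E} {A : Option k}, p ≠ A.map (algebraMap k E) →
        p.map g ≠ A.map (algebraMap k E) := by
      intro p A h h'
      rw [← map_map28 g A] at h'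
      exact h (map_inj28 g h')
    refine ⟨p.map g, q.map g, at_moves28 H.geo.clE hΦ g h1 hm1, at_moves28 H.geo.clE hΦ g h2 hm2,
      (brP_map28 g f p).2 h3, (brP_map28 g f q).2 h4, fun h => h5 (map_inj28 g h), hne h6, hne h7,
      hne h8, hne h9, ?_⟩
    have hd : ∀ (p : Option E) (A : Option k), dif (p.map g) (A.map (algebraMap k E)) =
        g (dif p (A.map (algebraMap k E))) := by
      intro p A
      conv_lhs => rw [← map_map28 g A]
      exact dif_map28 g _ _
    rw [hd, hd, hd, hd, ← map_pow, h10, map_mul, map_mul, map_mul]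
  ex := by
    have hcl : IsAlgClosed E := H.geo.clE
    have halg : Algebra.IsAlgebraic k E := H.geo.algE
    obtain ⟨p, q, h3, h4, h5, h6, h7, h8, h9, hn⟩ := hC A B hAB hA hB
    obtain ⟨b₁, h1⟩ := exists_at28 H p
    obtain ⟨b₂, h2⟩ := exists_at28 H q
    obtain ⟨m, hm⟩ : ∃ m : E, m = dif p (A.map (algebraMap k E)) * dif p (B.map (algebraMap k E)) *
      (dif q (A.map (algebraMap k E)) * dif q (B.map (algebraMap k E))) := ⟨_, rfl⟩
    obtain ⟨d, hd⟩ := IsAlgClosed.exists_pow_nat_eq m two_pos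
    have hp : ∀ e : E, p = some e →
        e ∈ IntermediateField.adjoin k {e : E | p = some e ∨ q = some e} := fun e he =>
      IntermediateField.subset_adjoin _ _ (Or.inl he)
    have hq : ∀ e : E, q = some e →
        e ∈ IntermediateField.adjoin k {e : E | p = some e ∨ q = some e} := fun e he =>
      IntermediateField.subset_adjoin _ _ (Or.inr he)
    have hmem : m ∈ IntermediateField.adjoin k {e : E | p = some e ∨ q = some e} := by
      rw [hm]
      exact mul_mem (mul_mem (dif_mem28 _ A hp) (dif_mem28 _ B hp))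
        (mul_mem (dif_mem28 _ A hq) (dif_mem28 _ B hq))
    obtain ⟨σ, hσ, hσd⟩ := TW3.exists_neg99 {e : E | p = some e ∨ q = some e} m d hd hmem
      (fun y hy => by rw [hm]; exact hn y hy)
    have hfix : ∀ o : Option E, (o = p ∨ o = q) → o.map σ = o := by
      intro o ho
      cases o with
      | none => rfl
      | some e =>
        refine congrArg some (hσ e ?_)
        rcases ho with h | h
        · exact Or.inl h.symm
        · exact Or.inr h.symm
    refine ⟨b₁, b₂, d, ⟨p, q, h1, h2, h3, h4, h5, h6, h7, h8, h9, by rw [hd, hm]⟩, σ, hσd,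
      fun c Φ hc hΦ => ⟨?_, ?_⟩⟩
    · refine at_mv28 H hc hΦ σ h1 ?_
      rw [hfix p (Or.inl rfl)]
      exact h1
    · refine at_mv28 H hc hΦ σ h2 ?_
      rw [hfix q (Or.inr rfl)]
      exact h2
  sg := fun c Φ hc hΦ σ b₁ b₂ d hT h1 h2 h3 z hz P P' hP hP' hm hm' =>
    hSG k K0 E U x f r H _ _ a b ha hb c Φ hc hΦ σ b₁ b₂ d hT h1 h2 h3 z hz P P' hP hP' hm hm'

/-- an orbit of odd length outside of two rational places -/
theorem orb28 (H : HypL E 2 x f r) (hT : Third k E 2 f) {A B : Option k} (hAB : A ≠ B)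
    (hA : BrP 2 f (A.map (algebraMap k E))) (hB : BrP 2 f (B.map (algebraMap k E)))
    (hc : c ≠ 0) (hΦ : L.Act (K0 := K0) r c Φ) (σ : E ≃ₐ[k] E) :
    ∃ (b₃ : Place E (L0 E K0 (U := U))) (o : Option E), At x b₃ o ∧ BrP 2 f o ∧
      o ≠ A.map (algebraMap k E) ∧ o ≠ B.map (algebraMap k E) ∧
      ∃ n : ℕ, Odd n ∧ Moves (Φ (σ ^ n)) _ b₃ b₃ := by
  have hcl : IsAlgClosed E := H.geo.clE
  have halg : Algebra.IsAlgebraic k E := H.geo.algE
  have hmult : ∀ α : k, BrP 2 f ((some α).map (algebraMap k E)) → ¬ 2 ∣ f.rootMultiplicity α := by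
    intro α h
    have h1 : ¬ 2 ∣ (f.map (algebraMap k E)).rootMultiplicity (algebraMap k E α) := h
    rwa [PD.Line.mult_map] at h1
  -- a root of odd degree
  have key : ∀ θ : E, IsBr 2 f θ → ¬ 2 ∣ (minpoly k θ).natDegree →
      (some θ : Option E) ≠ A.map (algebraMap k E) → (some θ : Option E) ≠ B.map (algebraMap k E) →
      ∃ (b₃ : Place E (L0 E K0 (U := U))) (o : Option E), At x b₃ o ∧ BrP 2 f o ∧
      o ≠ A.map (algebraMap k E) ∧ o ≠ B.map (algebraMap k E) ∧
      ∃ n : ℕ, Odd n ∧ Moves (Φ (σ ^ n)) _ b₃ b₃ := by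
    intro θ h1 h2 h3 h4
    obtain ⟨τ, n, hn, hfix⟩ := PD.Line.orbit_prime Nat.prime_two θ h2 σ
    obtain ⟨b, hb⟩ := exists_at28 H (some (τ θ))
    have hne : ∀ {A : Option k}, (some θ : Option E) ≠ A.map (algebraMap k E) →
        (some (τ θ) : Option E) ≠ A.map (algebraMap k E) := by
      intro A h h'
      apply h
      have h5 : ((some θ : Option E)).map τ = (A.map (algebraMap k E)).map τ := by
        rw [map_map28]
        exact h'
      exact map_inj28 τ h5
    refine ⟨b, some (τ θ), hb, (brP_map28 τ f (some θ)).2 h1, hne h3, hne h4, n, ?_, ?_⟩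
    · rw [← Nat.not_even_iff_odd, even_iff_two_dvd]
      exact hn
    · refine at_mv28 H hc hΦ _ hb ?_
      have h6 : (some (τ θ) : Option E).map (σ ^ n) = some (τ θ) := congrArg some hfix
      rw [h6]
      exact hb
  have hsome : ∀ (θ : E) (α : k), θ ≠ algebraMap k E α →
      (some θ : Option E) ≠ (some α : Option k).map (algebraMap k E) := by
    intro θ α h h'
    exact h (Option.some.inj h')
  have hnone : ∀ θ : E, (some θ : Option E) ≠ (none : Option k).map (algebraMap k E) := by
    intro θ h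
    exact Option.some_ne_none _ h
  cases A with
  | none =>
    cases B with
    | none => exact absurd rfl hAB
    | some β =>
      obtain ⟨θ, h1, h2, h3⟩ := hT.inf β (hmult β hB) hA
      exact key θ h1 h3 (hnone θ) (hsome θ β h2)
  | some α =>
    cases B with
    | none =>
      obtain ⟨θ, h1, h2, h3⟩ := hT.inf α (hmult α hA) hB
      exact key θ h1 h3 (hsome θ α h2) (hnone θ)
    | some β =>
      have hαβ : α ≠ β := fun h => hAB (by rw [h])
      rcases hT.fin α β hαβ (hmult α hA) (hmult β hB) with h | ⟨θ, h1, h2, h3, h4⟩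
      · obtain ⟨b, hb⟩ := exists_at28 H (none : Option E)
        refine ⟨b, none, hb, h, ?_, ?_, 1, odd_one, at_mv28 H hc hΦ _ hb hb⟩
        · exact fun h => Option.some_ne_none _ h.symm
        · exact fun h => Option.some_ne_none _ h.symm
      · exact key θ h1 h4 (hsome θ α h2) (hsome θ β h3)

end

end E2

open E2

/-- **BLOCK E2**, from the signs. -/
theorem rS2_of (hSG : StmtSG2) : StmtRS2 := by
  intro k K0 E U _ _ _ _ _ _ _ _ _ _ _ _ x f r H hbr hnum hT hC
  classical
  have hcl : IsAlgClosed E := H.geo.clE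
  have halg : Algebra.IsAlgebraic k E := H.geo.algE
  have hclo : IsAlgClosure k E := ⟨hcl, halg⟩
  have hnorm : Normal k E := IsAlgClosure.normal k E
  have hgal : IsGalois k E := ⟨⟩
  have hnr := Pool.Agent.ML.nR k K0 E U 2 2 _ r two_pos Nat.prime_two dvd_rfl (hasMu_two28 k) H.geo
  have hfin := hnr.1
  obtain ⟨R, hRdef⟩ : ∃ R : Finset (Place E (L0 E K0 (U := U))), R = hfin.toFinset.filter
    (fun b => ∃ A : Option k, At x b (A.map (algebraMap k E))) := ⟨_, rfl⟩
  have hRm : ∀ b, b ∈ R ↔ M.BPl (aeval x f) b ∧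
      ∃ A : Option k, At x b (A.map (algebraMap k E)) := by
    intro b
    rw [hRdef, Finset.mem_filter, Set.Finite.mem_toFinset]
    rfl
  have hbrA : ∃ A : Option k, BrP 2 f (A.map (algebraMap k E)) := by
    obtain ⟨u, ⟨-, hd⟩ | ⟨α, hα, -⟩⟩ := hbr
    · exact ⟨none, hd⟩
    · refine ⟨some α, ?_⟩
      show ¬ 2 ∣ (f.map (algebraMap k E)).rootMultiplicity (algebraMap k E α)
      rw [PD.Line.mult_map]
      exact hα
  refine ⟨R, ⟨?_, ?_, ?_, ?_, ?_, ?_, ?_⟩, ?_⟩
  · obtain ⟨A, hA⟩ := hbrA
    obtain ⟨b, hb⟩ := exists_at28 H (A.map (algebraMap k E))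
    exact ⟨b, (hRm b).2 ⟨(bpl_at28 H hb).2 hA, A, hb⟩⟩
  · intro b hb
    exact ((hRm b).1 hb).1
  · intro b hb c Φ hc hΦ σ
    obtain ⟨-, A, hA⟩ := (hRm b).1 hb
    refine at_mv28 H hc hΦ σ hA ?_
    rw [map_map28]
    exact hA
  · intro c Φ hc hΦ b hb hbR
    obtain ⟨o, ho⟩ := at_cases28 H b
    have hσ : ∃ σ : E ≃ₐ[k] E, o.map σ ≠ o := by
      by_contra hcon
      push Not at hcon
      apply hbR
      rw [hRm]
      refine ⟨hb, ?_⟩
      cases o with
      | none => exact ⟨none, ho⟩
      | some e =>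
        have h1 : e ∈ (⊥ : IntermediateField k E) :=
          (InfiniteGalois.mem_bot_iff_fixed e).2 fun σ => Option.some.inj (hcon σ)
        obtain ⟨a, ha⟩ := IntermediateField.mem_bot.1 h1
        refine ⟨some a, ?_⟩
        have h2 : ((some a : Option k)).map (algebraMap k E) = some e := congrArg some ha
        rw [h2]
        exact ho
    obtain ⟨σ, hσ⟩ := hσ
    exact ⟨σ, fun hm => hσ (at_pt28 (at_moves28 hcl hΦ σ ho hm) ho)⟩
  · have h1 := PD.Line.card_bpl Nat.prime_two (hyp28 H)
    have h2 : 5 ≤ PD.nBr E 2 f := hnum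
    rw [← h1] at h2
    exact h2
  · intro a ha b hb hab c Φ hc hΦ σ
    obtain ⟨ha1, A, hA⟩ := (hRm a).1 ha
    obtain ⟨hb1, B, hB⟩ := (hRm b).1 hb
    have hAB : A ≠ B := by
      rintro rfl
      exact hab (at_unique28 H hA hB)
    obtain ⟨b₃, o, h1, h2, h3, h4, n, hn, h5⟩ := orb28 H hT hAB ((bpl_at28 H hA).1 ha1)
      ((bpl_at28 H hB).1 hb1) hc hΦ σ
    exact ⟨b₃, (bpl_at28 H h1).2 h2, at_ne28 h1 hA h3, at_ne28 h1 hB h4, n, hn, h5⟩
  · intro a ha b hb hab
    obtain ⟨ha1, A, hA⟩ := (hRm a).1 ha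
    obtain ⟨hb1, B, hB⟩ := (hRm b).1 hb
    have hAB : A ≠ B := by
      rintro rfl
      exact hab (at_unique28 H hA hB)
    exact ⟨_, pairC28 hSG H hC hAB hA hB ((bpl_at28 H hA).1 ha1) ((bpl_at28 H hB).1 hb1)⟩
  · intro b hb
    obtain ⟨hb1, A, hA⟩ := (hRm b).1 hb
    have hr : PD.RatPl (k := k) x b := by
      cases A with
      | none => exact Or.inl hA
      | some α => exact Or.inr ⟨α, hA⟩
    obtain ⟨u, h5, -, h6⟩ := exists_pole28 Nat.prime_two H hb1 hr
    exact ⟨u, h5, fun Q hQ => h6 _ Q hQ⟩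

end Pool.Agent.PDL
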