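import Pool.Agent.Helper28.PD.Defs

/-!
# Project PD, block P11d: the conditions do not depend on the algebraic closure
-/

set_option autoImplicit false

namespace Pool.Agent.PD

open Polynomial

namespace NBaux

variable {k E E' : Type} [Field k] [Field E] [Field E'] [Algebra k E] [Algebra k E']

theorem mult_equiv (f : k[X]) (τ : E ≃ₐ[k] E') (p : E) :
    (f.map (algebraMap k E')).rootMultiplicity (τ p) =
      (f.map (algebraMap k E)).rootMultiplicity p := by
  have h1 := Polynomial.eq_rootMultiplicity_map (p := f.map (algebraMap k E))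
    (f := (τ : E →+* E')) τ.injective p
  have h2 : (f.map (algebraMap k E)).map (τ : E →+* E') = f.map (algebraMap k E') := by
    rw [Polynomial.map_map]
    congr 1
    ext a
    exact τ.commutes a
  rw [h2] at h1
  exact h1.symm

theorem nBr_equiv (τ : E ≃ₐ[k] E') (ℓ : ℕ) (f : k[X]) : nBr E ℓ f = nBr E' ℓ f := by
  unfold nBr
  congr 1
  refine Nat.card_congr (Equiv.subtypeEquiv τ.toEquiv fun e => ?_)
  show _ ↔ ¬ ℓ ∣ (f.map (algebraMap k E')).rootMultiplicity (τ e)
  rw [mult_equiv]

theorem third_equiv (τ : E ≃ₐ[k] E') {ℓ : ℕ} {f : k[X]} {S : Set E} {S' : Set E'}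
    (hS : ∀ e, τ e ∈ S' → e ∈ S) (h : Third E ℓ f S) : Third E' ℓ f S' := by
  obtain ⟨p, h1, h2, h3⟩ := h
  refine ⟨τ p, fun h0 => h1 (hS p h0), ?_, ?_⟩
  · rw [mult_equiv]
    exact h2
  · rw [minpoly.algEquiv_eq]
    exact h3

theorem numC_equiv (τ : E ≃ₐ[k] E') {ℓ : ℕ} {f : k[X]} (h : NumC E ℓ f) : NumC E' ℓ f where
  num := by
    rw [← nBr_equiv τ]
    exact h.num
  pair := fun α β hne ha hb => by
    obtain ⟨h1, h2⟩ := h.pair α β hne ha hb
    refine ⟨h1, h2.imp id fun h2 => third_equiv τ ?_ h2⟩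
    intro e he
    rcases he with he | he
    · left
      apply τ.injective
      rw [he, τ.commutes]
    · right
      rw [Set.mem_singleton_iff] at he ⊢
      apply τ.injective
      rw [he, τ.commutes]
  pairI := fun α ha hd => by
    obtain ⟨h1, h2⟩ := h.pairI α ha hd
    refine ⟨h1, third_equiv τ ?_ h2⟩
    intro e he
    rw [Set.mem_singleton_iff] at he ⊢
    apply τ.injective
    rw [he, τ.commutes]

end NBaux

open NBaux

/-- **BLOCK P11d.** -/
theorem nB : StmtNB := by
  intro k E _ _ _ _ _ ℓ f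
  have hac : IsAlgClosure k E := ⟨inferInstance, inferInstance⟩
  exact ⟨nBr_equiv (IsAlgClosure.equiv k E (AlgebraicClosure k)) ℓ f,
    fun h => numC_equiv (IsAlgClosure.equiv k (AlgebraicClosure k) E) h⟩

end Pool.Agent.PD
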