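import Pool.Agent.Helper45.PD.Defs2
import Pool.Agent.Helper28.PD.LineB

/-!
# Project PD, block P11: the poles above the rational branch places
-/

set_option autoImplicit false

namespace Pool.Agent.PDL

open VC IntermediateField NumberField IsDedekindDomain Pool.Agent.SC
open Pool.Agent.L (L0 MM)
open Pool.Agent.LN (Geo Act)
open Pool.Agent.M (Moves OverPl inL0)
open Pool.Agent.ML (HasMu BPl)

/-- the poles above `b` -/
theorem poleAt_of28 {E K0 U : Type} [Field E] [Field K0] [Field U] [Algebra E U] [Algebra K0 U]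
    {N : IntermediateField E U} {b : Place E (L0 E K0 (U := U))} {Q : Place E N}
    (hQ : OverPl b Q) {u : K0} (hb : inL0 u ∉ b.ring) : PoleAt u Q := fun hu hmem =>
  hb ((hQ (algebraMap K0 U u) (inL0 (E := E) (U := U) u).2 hu).2 hmem)

theorem inL0_inv_sub28 {k E K0 U : Type} [Field k] [Field E] [Field K0] [Field U] [Algebra E U]
    [Algebra K0 U] [Algebra k K0] [Algebra k E] [Algebra k U] [IsScalarTower k E U]
    [IsScalarTower k K0 U] (x : K0) (α : k) :
    inL0 (E := E) (U := U) (x - algebraMap k K0 α)⁻¹ =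
      (inL0 x - algebraMap E (L0 E K0 (U := U)) (algebraMap k E α))⁻¹ := by
  apply Subtype.ext
  show algebraMap K0 U (x - algebraMap k K0 α)⁻¹ =
    (algebraMap K0 U x - algebraMap E U (algebraMap k E α))⁻¹
  rw [map_inv₀, map_sub, ← IsScalarTower.algebraMap_apply k K0 U,
    ← IsScalarTower.algebraMap_apply k E U]

/-- a rational branch place `b` has a function `u` with a pole at `b`, and at all places above -/
theorem exists_pole28 {k K0 E U : Type} [Field k] [NumberField k] [Field K0] [Field E] [Field U]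
    [Algebra k K0] [Algebra k E] [Algebra E U] [Algebra K0 U] [Algebra k U] [IsScalarTower k E U]
    [IsScalarTower k K0 U] {ℓ : ℕ} {x : K0} {f : Polynomial k} {r : U} (hℓ : ℓ.Prime)
    (H : HypL E ℓ x f r) {b : Place E (L0 E K0 (U := U))} (hb : BPl ℓ (Polynomial.aeval x f) b)
    (hr : PD.RatPl (k := k) x b) :
    ∃ u : K0, IsRatBr ℓ x f u ∧ inL0 u ∉ b.ring ∧
      ∀ (N : IntermediateField E U) (Q : Place E N), OverPl b Q → PoleAt u Q := by
  have H' : PD.HypL E ℓ x f r := ⟨H.geo, H.gen, H.tr⟩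
  rcases hr with h4 | ⟨α, h4⟩
  · exact ⟨x, Or.inl ⟨rfl, (PD.Line.bpl_inf hℓ H' h4).1 hb⟩, h4, fun N Q hQ => poleAt_of28 hQ h4⟩
  · have h5 : PD.Line.Vl x b (algebraMap k E α) := h4
    have h7 : inL0 (x - algebraMap k K0 α)⁻¹ ∉ b.ring := by
      rw [inL0_inv_sub28]
      intro hmem
      have h6 := h5.nu
      rw [ValuationSubring.mem_nonunits_iff_or] at h6
      rcases h6 with h6 | h6
      · exact Pool.Agent.TOW.KX2aux.X_sub_ne (PD.Line.trL H') _ h6
      · exact h6 hmem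
    refine ⟨(x - algebraMap k K0 α)⁻¹, Or.inr ⟨α, ?_, rfl⟩, h7, fun N Q hQ => poleAt_of28 hQ h7⟩
    have h6 := (PD.Line.bpl_val hℓ H' h5).1 hb
    rwa [PD.Line.mult_map] at h6

/-- **BLOCK P11.** -/
theorem rS : StmtRS := by
  intro k K0 E U _ _ _ _ _ _ _ _ _ _ _ _ ℓ x f r hℓ hℓ2 hμ H hbr hnum hT
  have H' : PD.HypL E ℓ x f r := ⟨H.geo, H.gen, H.tr⟩
  have hN : PD.NumC E ℓ f :=
    { num := hnum
      pair := fun α β hne ha hb => by
        refine ⟨hℓ2, (hT.fin α β hne ha hb).imp id ?_⟩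
        rintro ⟨θ, h1, h2, h3, h4⟩
        refine ⟨θ, ?_, h1, h4⟩
        rintro (h | h)
        · exact h2 h
        · exact h3 h
      pairI := fun α ha hd => by
        obtain ⟨θ, h1, h2, h4⟩ := hT.inf α ha hd
        exact ⟨hℓ2, θ, fun h => h2 h, h1, h4⟩ }
  have hR : PD.RatBr ℓ f := by
    obtain ⟨u, ⟨-, hd⟩ | ⟨α, hα, -⟩⟩ := hbr
    · exact Or.inr hd
    · exact Or.inl ⟨α, hα⟩
  obtain ⟨R, h1, h2⟩ := PD.rS k K0 E U ℓ x f r hℓ hμ H' hN hR
  refine ⟨R, h1, fun b hb => ?_⟩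
  obtain ⟨h3, h4⟩ := (h2 b).1 hb
  obtain ⟨u, h5, -, h6⟩ := exists_pole28 hℓ H h3 h4
  exact ⟨u, h5, fun Q hQ => h6 _ Q hQ⟩

end Pool.Agent.PDL
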