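import Pool.Agent.Helper70.PD2.RS2

/-!
# Project PD, block E2: `Pool.Agent.PDL.rS2`, see `Helper70/PD2/RS2.lean`
-/
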