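import Pool.Agent.Helper28.PD.Defs

/-!
# Project PD, block P11b: rational totally ramified points of the line
-/

set_option autoImplicit false

namespace Pool.Agent.PD

open Polynomial

namespace RTaux

variable {k K0 Γ : Type} [Field k] [Field K0] [Algebra k K0] [LinearOrderedCommGroupWithZero Γ]
  {v : Valuation K0 Γ} (hv : ∀ a : k, v (algebraMap k K0 a) ≤ 1)

include hv

theorem val_const {a : k} (ha : a ≠ 0) : v (algebraMap k K0 a) = 1 := by
  refine le_antisymm (hv a) ?_
  have h1 := hv a⁻¹
  have h2 : v (algebraMap k K0 a) * v (algebraMap k K0 a⁻¹) = 1 := by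
    rw [← map_mul, ← map_mul, mul_inv_cancel₀ ha, map_one, map_one]
  by_contra hlt
  rw [not_le] at hlt
  have h3 : v (algebraMap k K0 a) * v (algebraMap k K0 a⁻¹) < 1 := by
    calc v (algebraMap k K0 a) * v (algebraMap k K0 a⁻¹)
        ≤ v (algebraMap k K0 a) * 1 := mul_le_mul_right h1 _
      _ = v (algebraMap k K0 a) := mul_one _
      _ < 1 := hlt
  exact absurd h2 h3.ne

theorem val_poly {y : K0} (hy : v y ≤ 1) (q : k[X]) : v (aeval y q) ≤ 1 := by
  induction q using Polynomial.induction_on' with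
  | add p q hp hq =>
    rw [map_add]
    exact (v.map_add _ _).trans (max_le hp hq)
  | monomial n a =>
    rw [aeval_monomial, map_mul, map_pow]
    exact mul_le_one' (hv a) (pow_le_one' hy n)

/-- the value of a polynomial at a point where it does not vanish -/
theorem val_unit {y : K0} {α : k} (hy : v (y - algebraMap k K0 α) < 1) {q : k[X]}
    (hq : eval α q ≠ 0) : v (aeval y q) = 1 := by
  have hy1 : v y ≤ 1 := by
    have h1 : y = (y - algebraMap k K0 α) + algebraMap k K0 α := by ring
    rw [h1]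
    exact (v.map_add _ _).trans (max_le hy.le (hv α))
  obtain ⟨q', hq'⟩ : ∃ q' : k[X], q = C (eval α q) + (X - C α) * q' := by
    have h1 : (X - C α) ∣ q - C (eval α q) := by
      rw [dvd_iff_isRoot, IsRoot.def, eval_sub, eval_C, sub_self]
    obtain ⟨q', h2⟩ := h1
    exact ⟨q', by rw [← h2]; ring⟩
  have h3 : aeval y q = algebraMap k K0 (eval α q) + (y - algebraMap k K0 α) * aeval y q' := by
    conv_lhs => rw [hq']
    rw [map_add, map_mul, map_sub, aeval_X, aeval_C, aeval_C]
  have h4 : v ((y - algebraMap k K0 α) * aeval y q') < 1 := by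
    rw [map_mul]
    calc v (y - algebraMap k K0 α) * v (aeval y q')
        ≤ v (y - algebraMap k K0 α) * 1 := mul_le_mul_right (val_poly hv hy1 q') _
      _ = v (y - algebraMap k K0 α) := mul_one _
      _ < 1 := hy
  rw [h3, Valuation.map_add_eq_of_lt_left, val_const hv hq]
  rw [val_const hv hq]
  exact h4

end RTaux

open RTaux

/-- **BLOCK P11b.** -/
theorem rT : StmtRT := by
  intro k K0 _ _ _ _ ℓ x f hℓ hgen htr hf ⟨P, hP, hres, hram⟩
  by_contra hno
  unfold RatBr at hno
  push Not at hno
  obtain ⟨h1, h2⟩ := hno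
  have hv : ∀ a : k, P.valuation (algebraMap k K0 a) ≤ 1 := fun a =>
    (P.valuation_le_one_iff _).2 (hP a)
  by_cases hx : x ∈ P
  · obtain ⟨α, hα⟩ := hres x hx
    obtain ⟨q, hq, hnd⟩ := exists_eq_pow_rootMultiplicity_mul_and_not_dvd f hf α
    have hqe : eval α q ≠ 0 := fun h0 => hnd (dvd_iff_isRoot.2 h0)
    obtain ⟨m, hm⟩ := h1 α
    apply hram ℓ dvd_rfl hℓ.one_lt ((x - algebraMap k K0 α) ^ m)
    have h4 : aeval x f = (x - algebraMap k K0 α) ^ f.rootMultiplicity α * aeval x q := by
      conv_lhs => rw [hq]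
      rw [map_mul, map_pow, map_sub, aeval_X, aeval_C]
    rw [h4, map_mul, val_unit hv hα hqe, mul_one, ← map_pow, ← pow_mul, hm, mul_comm m ℓ]
  · have hx0 : x ≠ 0 := by
      rintro rfl
      exact hx P.zero_mem
    have hinv : P.valuation (x⁻¹ - algebraMap k K0 0) < 1 := by
      rw [map_zero, sub_zero, ← ValuationSubring.mem_nonunits_iff,
        ValuationSubring.mem_nonunits_iff_or, inv_inv]
      exact Or.inr hx
    obtain ⟨m, hm⟩ := h2
    apply hram ℓ dvd_rfl hℓ.one_lt (x ^ m)
    have hr : eval 0 f.reverse ≠ 0 := by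
      rw [← coeff_zero_eq_eval_zero, coeff_zero_reverse]
      exact leadingCoeff_ne_zero.2 hf
    have h3 := val_unit hv hinv hr
    have h5 : aeval x f = x ^ f.natDegree * aeval x⁻¹ f.reverse := by
      let _ : Invertible x := invertibleOfNonzero hx0
      have h6 := Polynomial.eval₂_reverse_mul_pow (algebraMap k K0) x f
      rw [invOf_eq_inv] at h6
      rw [Polynomial.aeval_def, Polynomial.aeval_def, ← h6, mul_comm]
    rw [h5, map_mul, h3, mul_one, ← map_pow, ← pow_mul, hm, mul_comm m ℓ]

end Pool.Agent.PD
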